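import Pool.Agent.Helper16.CZ.Stmts

set_option autoImplicit false

/-!
The criterion of van der Corput (module VDC).
-/

open Finset Filter MeasureTheory Topology
open scoped ComplexConjugate InnerProductSpace

namespace Pool.Agent.Helper16.CZ

open Pool.Agent.Helper16.AZ (T E Op mm ST_VDH ST_FPV ST_TLR)

theorem vdc_shift (f : ℕ → ℂ) (h M : ℕ) :
    ∑ y ∈ Icc 1 M, f (y + h) = ∑ z ∈ Icc 1 (M + h), f z - ∑ z ∈ Icc 1 h, f z := by
  induction M with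
  | zero => simp
  | succ M ih =>
    rw [Finset.sum_Icc_succ_top (by omega), ih]
    have h1 : M + 1 + h = (M + h) + 1 := by omega
    rw [h1, Finset.sum_Icc_succ_top (by omega)]
    ring

theorem vdc_norm_sum (f : ℕ → ℂ) (hf : ∀ y, ‖f y‖ ≤ 1) (M : ℕ) : ‖∑ y ∈ Icc 1 M, f y‖ ≤ M := by
  have h := Finset.sum_le_sum (s := Icc 1 M) fun y _ => hf y
  refine (norm_sum_le _ _).trans (h.trans ?_)
  simp

theorem vdc_far (a : ℕ → ℂ) (ha : ∀ y, ‖a y‖ ≤ 1) (δ : ℝ) (M h d : ℕ)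
    (hb : ‖∑ y ∈ Icc 1 (M + h), a (y + d) * conj (a y)‖ ≤ δ * ((M + h : ℕ) : ℝ)) :
    ‖∑ y ∈ Icc 1 M, a (y + h + d) * conj (a (y + h))‖ ≤ δ * (M + h) + h := by
  have h1 := vdc_shift (fun z => a (z + d) * conj (a z)) h M
  have h2 : ∀ z, ‖a (z + d) * conj (a z)‖ ≤ 1 := by
    intro z
    rw [norm_mul, RCLike.norm_conj]
    have := mul_le_mul (ha (z + d)) (ha z) (norm_nonneg _) (by norm_num : (0 : ℝ) ≤ 1)
    rwa [one_mul] at this
  have h3 := vdc_norm_sum (fun z => a (z + d) * conj (a z)) h2 h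
  have h4 : ∑ y ∈ Icc 1 M, a (y + h + d) * conj (a (y + h)) =
      ∑ z ∈ Icc 1 (M + h), a (z + d) * conj (a z) - ∑ z ∈ Icc 1 h, a (z + d) * conj (a z) := h1
  rw [h4]
  refine (norm_sub_le _ _).trans ?_
  have h5 : ((M + h : ℕ) : ℝ) = (M : ℝ) + h := by push_cast; ring
  rw [h5] at hb
  linarith

theorem vdc_pair (a : ℕ → ℂ) (ha : ∀ y, ‖a y‖ ≤ 1) (δ : ℝ) (hδ : 0 < δ) (h₀ H M : ℕ)
    (hb : ∀ d < H, h₀ ≤ d → ∀ h < H,
      ‖∑ y ∈ Icc 1 (M + h), a (y + d) * conj (a y)‖ ≤ δ * ((M + h : ℕ) : ℝ))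
    (h h' : ℕ) (hh : h < H) (hh' : h' < H) :
    ∑ y ∈ Icc 1 M, (inner ℂ (a (y + h)) (a (y + h')) : ℂ).re ≤
      (if h' + h₀ ≤ h ∨ h + h₀ ≤ h' then 0 else (M : ℝ)) + (δ * (M + H) + H) := by
  have hH : (h : ℝ) ≤ H := by exact_mod_cast hh.le
  have hH' : (h' : ℝ) ≤ H := by exact_mod_cast hh'.le
  have hM0 : (0 : ℝ) ≤ (M : ℝ) := Nat.cast_nonneg M
  have hE : ∑ y ∈ Icc 1 M, (inner ℂ (a (y + h)) (a (y + h')) : ℂ).re ≤
      ‖∑ y ∈ Icc 1 M, a (y + h') * conj (a (y + h))‖ := by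
    have h1 : ∑ y ∈ Icc 1 M, (inner ℂ (a (y + h)) (a (y + h')) : ℂ).re =
        (∑ y ∈ Icc 1 M, a (y + h') * conj (a (y + h))).re := by
      rw [Complex.re_sum]
      exact Finset.sum_congr rfl fun y _ => by rw [RCLike.inner_apply]
    rw [h1]
    exact (Complex.abs_re_le_norm _).trans' (le_abs_self _)
  split_ifs with hc
  · rw [zero_add]
    refine hE.trans ?_
    rcases hc with hc | hc
    · obtain ⟨d, rfl⟩ := Nat.exists_eq_add_of_le (by omega : h' ≤ h)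
      have h1 := vdc_far a ha δ M h' d (hb d (by omega) (by omega) h' hh')
      have h2 : ‖∑ y ∈ Icc 1 M, a (y + h') * conj (a (y + (h' + d)))‖ =
          ‖∑ y ∈ Icc 1 M, a (y + h' + d) * conj (a (y + h'))‖ := by
        rw [← RCLike.norm_conj, map_sum]
        congr 1
        refine Finset.sum_congr rfl fun y _ => ?_
        rw [map_mul, Complex.conj_conj, mul_comm, add_assoc]
      rw [h2]
      nlinarith
    · obtain ⟨d, rfl⟩ := Nat.exists_eq_add_of_le (by omega : h ≤ h')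
      have h1 := vdc_far a ha δ M h d (hb d (by omega) (by omega) h hh)
      have h2 : ‖∑ y ∈ Icc 1 M, a (y + (h + d)) * conj (a (y + h))‖ =
          ‖∑ y ∈ Icc 1 M, a (y + h + d) * conj (a (y + h))‖ := by
        congr 1
        refine Finset.sum_congr rfl fun y _ => ?_
        rw [add_assoc]
      rw [h2]
      nlinarith
  · refine hE.trans ?_
    have h2 : ∀ y, ‖a (y + h') * conj (a (y + h))‖ ≤ 1 := by
      intro z
      rw [norm_mul, RCLike.norm_conj]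
      have := mul_le_mul (ha (z + h')) (ha (z + h)) (norm_nonneg _) (by norm_num : (0 : ℝ) ≤ 1)
      rwa [one_mul] at this
    have h3 := vdc_norm_sum (fun y => a (y + h') * conj (a (y + h))) h2 M
    have h4 : (0 : ℝ) ≤ δ * (M + H) + H := by positivity
    linarith

theorem vdc_count (h₀ H h : ℕ) (B : ℝ) (hB : 0 ≤ B) :
    ∑ h' ∈ range H, (if h' + h₀ ≤ h ∨ h + h₀ ≤ h' then 0 else B) ≤ 2 * h₀ * B := by
  rw [Finset.sum_ite, Finset.sum_const_zero, zero_add, Finset.sum_const, nsmul_eq_mul]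
  apply mul_le_mul_of_nonneg_right _ hB
  have h1 : (range H).filter (fun h' => ¬ (h' + h₀ ≤ h ∨ h + h₀ ≤ h')) ⊆
      Ico (h + 1 - h₀) (h + h₀) := by
    intro x hx
    rw [mem_filter] at hx
    rw [mem_Ico]
    omega
  have h2 := Finset.card_le_card h1
  rw [Nat.card_Ico] at h2
  have h3 : ((range H).filter (fun h' => ¬ (h' + h₀ ≤ h ∨ h + h₀ ≤ h'))).card ≤ 2 * h₀ := by
    omega
  exact_mod_cast h3

theorem st_VDC (hv : ST_VDH) : ST_VDC := by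
  intro a ha hyp
  rw [Metric.tendsto_nhds]
  intro ε hε
  set δ : ℝ := ε ^ 2 / 8 with hδd
  have hδ : 0 < δ := by positivity
  obtain ⟨h₀, hh₀⟩ := hyp δ hδ
  obtain ⟨H, hH⟩ := exists_nat_ge (2 * (h₀ : ℝ) / δ + 1)
  have hH0 : (0 : ℝ) ≤ 2 * (h₀ : ℝ) / δ := by positivity
  have hH1 : (1 : ℝ) ≤ (H : ℝ) := by linarith
  have hH1n : 1 ≤ H := by exact_mod_cast hH1
  have hHδ : 2 * (h₀ : ℝ) ≤ δ * H := by
    have : 2 * (h₀ : ℝ) / δ ≤ H := by linarith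
    rw [div_le_iff₀ hδ] at this
    linarith
  have hev : ∀ᶠ M : ℕ in atTop, ∀ d < H, h₀ ≤ d → ∀ h < H,
      ‖∑ y ∈ Icc 1 (M + h), a (y + d) * conj (a y)‖ ≤ δ * ((M + h : ℕ) : ℝ) := by
    have h1 : ∀ d ∈ range H, ∀ᶠ M : ℕ in atTop, h₀ ≤ d →
        ‖∑ y ∈ Icc 1 M, a (y + d) * conj (a y)‖ ≤ δ * M := by
      intro d _
      by_cases hd : h₀ ≤ d
      · filter_upwards [hh₀ d hd] with M hM _
        exact hM
      · exact Eventually.of_forall fun M h => absurd h hd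
    rw [← Filter.eventually_all_finset] at h1
    rw [eventually_atTop] at h1 ⊢
    obtain ⟨M₀, hM₀⟩ := h1
    refine ⟨M₀, fun M hM d hd hd0 h _ => ?_⟩
    exact hM₀ (M + h) (by omega) d (mem_range.mpr hd) hd0
  have hlarge : ∀ᶠ M : ℕ in atTop, ((δ + 5) * H / δ + 4 * (H : ℝ) ^ 2 / δ + 1) ≤ (M : ℝ) :=
    tendsto_natCast_atTop_atTop.eventually_ge_atTop _
  filter_upwards [hev, hlarge] with M hM hM2
  have q1 : (0 : ℝ) ≤ (δ + 5) * H / δ := by positivity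
  have q2 : (0 : ℝ) ≤ 4 * (H : ℝ) ^ 2 / δ := by positivity
  have hM1 : (1 : ℝ) ≤ (M : ℝ) := by linarith
  have hMpos : (0 : ℝ) < (M : ℝ) := by linarith
  have r1 : (δ + 5) * H ≤ δ * M := by
    have : (δ + 5) * H / δ ≤ M := by linarith
    rw [div_le_iff₀ hδ] at this
    linarith
  have r2 : 4 * (H : ℝ) ^ 2 ≤ δ * M := by
    have : 4 * (H : ℝ) ^ 2 / δ ≤ M := by linarith
    rw [div_le_iff₀ hδ] at this
    linarith
  have hmain := hv ℂ a M H ha hH1n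
  have hsum : ∑ h ∈ range H, ∑ h' ∈ range H, ∑ y ∈ Icc 1 M,
      (inner ℂ (a (y + h)) (a (y + h')) : ℂ).re ≤
      H * (2 * h₀ * M + H * (δ * (M + H) + H)) := by
    have h1 : ∀ h ∈ range H, ∑ h' ∈ range H, ∑ y ∈ Icc 1 M,
        (inner ℂ (a (y + h)) (a (y + h')) : ℂ).re ≤
        2 * h₀ * M + H * (δ * (M + H) + H) := by
      intro h hh
      have h2 : ∀ h' ∈ range H, ∑ y ∈ Icc 1 M, (inner ℂ (a (y + h)) (a (y + h')) : ℂ).re ≤
          (if h' + h₀ ≤ h ∨ h + h₀ ≤ h' then 0 else (M : ℝ)) + (δ * (M + H) + H) :=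
        fun h' hh' => vdc_pair a ha δ hδ h₀ H M hM h h' (mem_range.mp hh) (mem_range.mp hh')
      refine (Finset.sum_le_sum h2).trans ?_
      rw [Finset.sum_add_distrib, Finset.sum_const, nsmul_eq_mul, card_range]
      have h3 := vdc_count h₀ H h (M : ℝ) hMpos.le
      linarith
    refine (Finset.sum_le_sum h1).trans ?_
    rw [Finset.sum_const, nsmul_eq_mul, card_range]
  set S : ℝ := ‖∑ y ∈ Icc 1 M, a y‖ with hS
  have hS0 : 0 ≤ S := norm_nonneg _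
  have hHpos : (0 : ℝ) < (H : ℝ) := by linarith
  have hfin : (H : ℝ) ^ 2 * S ^ 2 ≤ (H : ℝ) ^ 2 * (4 * δ * (M : ℝ) ^ 2) := by
    have h1 : (M : ℝ) * (∑ h ∈ range H, ∑ h' ∈ range H, ∑ y ∈ Icc 1 M,
        (inner ℂ (a (y + h)) (a (y + h')) : ℂ).re) ≤
        M * (H * (2 * h₀ * M + H * (δ * (M + H) + H))) :=
      mul_le_mul_of_nonneg_left hsum hMpos.le
    have e1 : (M : ℝ) * (H * (2 * h₀ * M)) ≤ (H : ℝ) ^ 2 * (δ * (M : ℝ) ^ 2) := by
      have : (M : ℝ) * (H * (2 * h₀ * M)) = (M : ℝ) ^ 2 * H * (2 * h₀) := by ring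
      rw [this]
      have h2 : (M : ℝ) ^ 2 * H * (2 * h₀) ≤ (M : ℝ) ^ 2 * H * (δ * H) :=
        mul_le_mul_of_nonneg_left hHδ (by positivity)
      linarith [h2]
    have e2 : (M : ℝ) * (H * (H * (δ * (M + H) + H))) + 4 * (H : ℝ) ^ 3 * M =
        (H : ℝ) ^ 2 * (δ * (M : ℝ) ^ 2) + (H : ℝ) ^ 2 * M * ((δ + 5) * H) := by ring
    have e3 : (H : ℝ) ^ 2 * M * ((δ + 5) * H) ≤ (H : ℝ) ^ 2 * M * (δ * M) :=
      mul_le_mul_of_nonneg_left r1 (by positivity)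
    have e4 : 4 * (H : ℝ) ^ 4 ≤ (H : ℝ) ^ 2 * (δ * (M : ℝ) ^ 2) := by
      have h5 : 4 * (H : ℝ) ^ 2 ≤ δ * (M : ℝ) ^ 2 := by
        have : δ * (M : ℝ) ≤ δ * (M : ℝ) ^ 2 := by
          apply mul_le_mul_of_nonneg_left _ hδ.le
          nlinarith
        linarith
      have := mul_le_mul_of_nonneg_left h5 (by positivity : (0 : ℝ) ≤ (H : ℝ) ^ 2)
      nlinarith [this]
    nlinarith [hmain, h1, e1, e2, e3, e4]
  have hS2 : S ^ 2 ≤ 4 * δ * (M : ℝ) ^ 2 :=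
    le_of_mul_le_mul_left hfin (by positivity)
  have hlt : S ^ 2 < (ε * M) ^ 2 := by
    have : 4 * δ * (M : ℝ) ^ 2 = (ε * M) ^ 2 / 2 := by rw [hδd]; ring
    have h6 : 0 < (ε * M) ^ 2 := by positivity
    linarith
  have hlt2 : S < ε * M := lt_of_pow_lt_pow_left₀ 2 (by positivity) hlt
  rw [dist_zero_right, norm_div, Complex.norm_natCast, div_lt_iff₀ hMpos]
  exact hlt2

end Pool.Agent.Helper16.CZ
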